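import Pool.Agent.helper18.DH.SpecM

/-! d2:MDI: the perturbed maps `E_i + W_i`. -/

set_option autoImplicit false

open Filter Topology MeasureTheory
open scoped commutatorElement

namespace Pool.Agent.helper90.DH

open Pool.Agent.helper64.D2

theorem MDI_c1 (f : ℝ → ℝ) (n : ℕ) (hf : ContDiff ℝ (n + 1) f) : ContDiff ℝ n (deriv f) := by
  exact (contDiff_succ_iff_deriv.1 hf).2.2

theorem MDI (hDIF : DIF_stmt) (hSZC : SZC_stmt) : MDI_stmt := by
  intro E W a M τ0 τ1 τ2 hE ha hτ1 hLp hW hW0 hWb
  have hEc : ContDiff ℝ 2 (ev E) := ev_contDiff E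
  have hWc : ContDiff ℝ 2 W := hW.of_le (by norm_num)
  have hEd : Differentiable ℝ (ev E) := hEc.differentiable (by norm_num)
  have hWd : Differentiable ℝ W := hWc.differentiable (by norm_num)
  have hE1 : ContDiff ℝ 1 (deriv (ev E)) := MDI_c1 (ev E) 1 (by exact_mod_cast hEc)
  have hW1 : ContDiff ℝ 2 (deriv W) := MDI_c1 W 2 (by exact_mod_cast hW)
  have hW2 : ContDiff ℝ 1 (d2 W) := MDI_c1 (deriv W) 1 (by exact_mod_cast hW1)
  have hE1d : Differentiable ℝ (deriv (ev E)) := hE1.differentiable (by norm_num)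
  have hW1d : Differentiable ℝ (deriv W) := hW1.differentiable (by norm_num)
  have hW2d : Differentiable ℝ (d2 W) := hW2.differentiable (by norm_num)
  have hXd : ∀ x, deriv (fun x => (ev E x - x) + W x) x = (deriv (ev E) x - 1) + deriv W x := by
    intro x
    exact (((hEd x).hasDerivAt.sub (hasDerivAt_id x)).add (hWd x).hasDerivAt).deriv
  obtain ⟨E', hE'⟩ := hDIF (fun x => (ev E x - x) + W x) ((hEc.sub contDiff_id).add hWc) (by
    intro x hx
    have h1 : ev E x = x := ev_out E x hx
    have h2 : W x = 0 := hW0 x (fun h => hx ⟨by linarith [h.1], by linarith [h.2]⟩)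
    show (ev E x - x) + W x = 0
    rw [h1, h2]
    ring) (by
    intro x
    rw [hXd]
    have h1 := (hSZC.2.1 E a hE x).1
    have h2 := (hWb x).2.1
    have h3 := abs_add_le (deriv (ev E) x - 1) (deriv W x)
    linarith)
  have hv : ∀ x, ev E' x = ev E x + W x := by
    intro x
    have h1 : ev E' x = x + ((ev E x - x) + W x) := hE' x
    rw [h1]
    ring
  have hf : ev E' = fun x => ev E x + W x := funext hv
  have hd1 : deriv (ev E') = fun x => deriv (ev E) x + deriv W x := by
    funext x
    rw [hf]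
    exact ((hEd x).hasDerivAt.add (hWd x).hasDerivAt).deriv
  have hd2 : ∀ x, d2 (ev E') x = d2 (ev E) x + d2 W x := by
    intro x
    show deriv (deriv (ev E')) x = deriv (deriv (ev E)) x + deriv (deriv W) x
    rw [hd1]
    exact ((hE1d x).hasDerivAt.add (hW1d x).hasDerivAt).deriv
  refine ⟨E', hv, ?_, ?_, ?_⟩
  · intro x
    rw [hd2]
    exact (abs_add_le _ _).trans (add_le_add (hE x) (hWb x).2.2.1)
  · intro x y
    rw [hd2, hd2]
    have h1 : |d2 W x - d2 W y| ≤ 1 * |x - y| := by
      have := Convex.norm_image_sub_le_of_norm_deriv_le (f := d2 W) (s := Set.univ) (C := 1) (x := y) (y := x)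
        (fun z _ => hW2d z) (fun z _ => (hWb z).2.2.2) convex_univ (Set.mem_univ _) (Set.mem_univ _)
      simpa only [Real.norm_eq_abs] using this
    have h2 : d2 (ev E) x + d2 W x - (d2 (ev E) y + d2 W y) = (d2 (ev E) x - d2 (ev E) y) + (d2 W x - d2 W y) := by ring
    rw [h2]
    refine (abs_add_le _ _).trans ?_
    have h3 := hLp x y
    linarith
  · intro x
    have h1 := congrFun hd1 x
    refine ⟨?_, ?_, ?_⟩
    · rw [hv x, add_sub_cancel_left]
      exact (hWb x).1
    · rw [h1, add_sub_cancel_left]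
      exact (hWb x).2.1
    · rw [hd2, add_sub_cancel_left]
      exact (hWb x).2.2.1

end Pool.Agent.helper90.DH
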